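import Pool.Agent.KS6_19.DA.Elem

/-!
# MP_ff3f8e_an: the spectra of the endomorphisms of the disc algebra, classified

`A` is the disc algebra, as a set of functions on the closed unit disc.  An endomorphism `T` is a map
that is linear and multiplicative on `A` and maps `A` into itself; its values outside `A` play no role,
no boundedness is assumed, and `T` may be zero.  If it is not zero, it is the composition with a
continuous self-map `φ` of the closed disc.
-/

open Set Metric Filter Topology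

noncomputable section

namespace Pool.Agent.Results.MP_ff3f8e_an.ClassificationOfSpectra

/-- The closed unit disc. -/
abbrev Disc : Type := ↥(Metric.closedBall (0 : ℂ) 1)

/-- The disc algebra: the restrictions to the closed unit disc of the functions that are continuous
on the closed unit disc and holomorphic in the open unit disc. -/
def A : Set (Disc → ℂ) := {f | ∃ g : ℂ → ℂ, ContinuousOn g (closedBall 0 1) ∧
  DifferentiableOn ℂ g (ball 0 1) ∧ ∀ z : Disc, f z = g z}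

/-- `T` maps the disc algebra linearly into itself. -/
structure IsLin (T : (Disc → ℂ) → (Disc → ℂ)) : Prop where
  maps : ∀ f ∈ A, T f ∈ A
  add : ∀ f ∈ A, ∀ g ∈ A, T (f + g) = T f + T g
  smul : ∀ c : ℂ, ∀ f ∈ A, T (c • f) = c • T f

/-- `T` is an endomorphism of the disc algebra. -/
structure Endo (T : (Disc → ℂ) → (Disc → ℂ)) : Prop where
  lin : IsLin T
  mul : ∀ f ∈ A, ∀ g ∈ A, T (f * g) = T f * T g

/-- `S` is bounded for the sup norm. -/
def Bdd (S : (Disc → ℂ) → (Disc → ℂ)) : Prop :=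
  ∃ C : ℝ, ∀ f ∈ A, ∀ M : ℝ, (∀ z, ‖f z‖ ≤ M) → ∀ z, ‖S f z‖ ≤ C * M

/-- `S` is a bounded two-sided inverse of `T - l` on the disc algebra. -/
structure IsInv (T : (Disc → ℂ) → (Disc → ℂ)) (l : ℂ) (S : (Disc → ℂ) → (Disc → ℂ)) : Prop where
  lin : IsLin S
  bdd : Bdd S
  inv : ∀ f ∈ A, S (T f - l • f) = f ∧ T (S f) - l • S f = f

/-- The spectrum of `T`: the numbers `l` for which `T - l` has no bounded inverse. -/
def Spec (T : (Disc → ℂ) → (Disc → ℂ)) : Set ℂ := {l : ℂ | ¬ ∃ S, IsInv T l S}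

/-- `T` is the composition with the continuous self-map `φ` of the closed disc. -/
def IsComposition (T : (Disc → ℂ) → (Disc → ℂ)) (φ : Disc → Disc) : Prop :=
  Continuous φ ∧ ∀ f ∈ A, T f = f ∘ φ

/-- The iterates of `φ` converge to `a`, uniformly on the closed disc. -/
def ConvTo (φ : Disc → Disc) (a : ℂ) : Prop :=
  ∀ ε : ℝ, 0 < ε → ∃ N : ℕ, ∀ n : ℕ, N ≤ n → ∀ z : Disc, ‖((φ^[n] z : Disc) : ℂ) - a‖ < ε

/-- The pseudohyperbolic length `|v - u| / |1 - conj u * v|` of the step from `u = φ^n(z)` to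
`v = φ^(n+1)(z)` becomes small, uniformly in all `z` with `φ^n(z) ≠ a`. -/
def ZeroStep (φ : Disc → Disc) (a : ℂ) : Prop :=
  ∀ ε : ℝ, 0 < ε → ∃ n : ℕ, ∀ z : Disc, ((φ^[n] z : Disc) : ℂ) ≠ a →
    ‖((φ^[n + 1] z : Disc) : ℂ) - (φ^[n] z : Disc)‖ ≤
      ε * ‖1 - (starRingEnd ℂ) ((φ^[n] z : Disc) : ℂ) * (φ^[n + 1] z : Disc)‖

/-- The values `φ^n(w) ≠ a`. -/
def Im (φ : Disc → Disc) (a : ℂ) (n : ℕ) : Set ℂ := {z | z ≠ a ∧ ∃ w : Disc, z = (φ^[n] w : Disc)}

/-- The cone of the `ζ` with `Re (ζ s) ≥ 0` for every translation `s` that maps `E` into itself. -/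
def Cone (E : Set ℂ) : Set ℂ := {ζ | ∀ s : ℂ, (∀ z ∈ E, z + s ∈ E) → 0 ≤ (ζ * s).re}

/-- The union of `{0}` and of the logarithmic spirals `exp (- x (1 + i r))`, `x ≥ 0`, `s ≤ r ≤ t`: one
spiral for `s = t`, and a neighbourhood of zero bounded by two spirals for `s < t`. -/
def Fan (s t : ℝ) : Set ℂ :=
  {l | l = 0 ∨ ∃ x y : ℝ, 0 ≤ x ∧ s * x ≤ y ∧ y ≤ t * x ∧ l = Complex.exp (-(x + y * Complex.I))}

/-- If `φ` has order `n`, then `X` is the set of the `n`-th roots of unity. -/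
def RootCase (φ : Disc → Disc) (X : Set ℂ) : Prop :=
  ∀ n : ℕ, 0 < n → φ^[n] = id → (∀ j, 0 < j → j < n → φ^[j] ≠ id) → X = {l | l ^ n = 1}

/-- If `φ` is constant, then `X = {0, 1}`. -/
def ConstCase (φ : Disc → Disc) (X : Set ℂ) : Prop :=
  ∀ a : Disc, (∀ z : Disc, φ z = a) → X = {0, 1}

/-- If the iterates converge uniformly to a point `a` of the open disc, then `X = {0} ∪ {κ ^ j}`, where
`κ` is the derivative of `φ` at `a` and `|κ| < 1`. -/
def InnerCase (φ : Disc → Disc) (X : Set ℂ) : Prop :=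
  ∀ a : ℂ, ‖a‖ < 1 → ConvTo φ a → ∃ κ : ℂ, ‖κ‖ < 1 ∧
    (∀ g : ℂ → ℂ, (∀ z : Disc, g z = φ z) → HasDerivAt g κ a) ∧ X = {l | l = 0 ∨ ∃ j : ℕ, l = κ ^ j}

/-- `X = {0} ∪ exp (- C)`, `C` the cone of `h (φ^n(closed disc) \ {a})`, for an `n` and a holomorphic
function `h` on the open disc with `h ∘ φ = h + 1` which is injective on `φ^n(closed disc) \ {a}`. -/
def ConeFormula (φ : Disc → Disc) (a : ℂ) (X : Set ℂ) : Prop :=
  ∃ (h : ℂ → ℂ) (n : ℕ), DifferentiableOn ℂ h (ball 0 1) ∧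
    (∀ z : Disc, ‖(z : ℂ)‖ < 1 → ‖((φ z : Disc) : ℂ)‖ < 1 ∧ h (φ z : Disc) = h z + 1) ∧
    Im φ a n ⊆ ball 0 1 ∧ InjOn h (Im φ a n) ∧
    X = {l | l = 0 ∨ ∃ ζ ∈ Cone (h '' Im φ a n), l = Complex.exp (-ζ)}

/-- If `φ` is not constant and the iterates converge uniformly to a point `a` of the unit circle, with
hyperbolic steps tending to zero, then `X` is given by the cone formula, and it is a set `Fan s t`. -/
def FanCase (φ : Disc → Disc) (X : Set ℂ) : Prop :=
  ∀ a : ℂ, ‖a‖ = 1 → (∃ z : Disc, ((φ z : Disc) : ℂ) ≠ a) → ConvTo φ a → ZeroStep φ a →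
    ConeFormula φ a X ∧ ∃ s t : ℝ, s ≤ t ∧ X = Fan s t

/-- `φ` is not constant, its iterates do not converge uniformly to a point of the open disc, and they do
not converge uniformly to a point of the circle with hyperbolic steps tending to zero. -/
def Other (φ : Disc → Disc) : Prop :=
  (∀ a : Disc, ∃ z : Disc, φ z ≠ a) ∧ (∀ a : ℂ, ‖a‖ < 1 → ¬ ConvTo φ a) ∧
    ∀ a : ℂ, ‖a‖ = 1 → ConvTo φ a → ¬ ZeroStep φ a

/-- The list: `{0}`, the `n`-th roots of unity, the unit circle, `{0} ∪ {κ ^ j : j ≥ 0}` with `|κ| < 1`,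
the sets `Fan s t`, and the closed unit disc. -/
def Listed (X : Set ℂ) : Prop :=
  X = {0} ∨ (∃ n : ℕ, 0 < n ∧ X = {l | l ^ n = 1}) ∨ X = sphere 0 1 ∨
    (∃ κ : ℂ, ‖κ‖ < 1 ∧ X = {l | l = 0 ∨ ∃ j : ℕ, l = κ ^ j}) ∨
    (∃ s t : ℝ, s ≤ t ∧ X = Fan s t) ∨ X = closedBall 0 1

/-- **Classification.**  Let `T` be an endomorphism of the disc algebra.  It is bounded.  If `T = 0`
the spectrum is `{0}`.  Otherwise `T f = f ∘ φ`, and the spectrum is
* the set of the `n`-th roots of unity, if `n` is the order of `φ`;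
* the unit circle, if `T` is bijective and `φ` has infinite order;
* `{0, 1}`, if `φ` is constant;
* `{0} ∪ {κ ^ j : j ≥ 0}`, `κ = φ'(a)`, `|κ| < 1`, if the iterates of `φ` converge uniformly to a point
  `a` of the open disc;
* a set `Fan s t`, if `φ` is not constant and its iterates converge uniformly to a point `a` of the unit
  circle, with hyperbolic steps tending to zero uniformly.  In this case there are a holomorphic
  function `h` on the open disc with `h ∘ φ = h + 1` and an `n` such that `h` is injective on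
  `φ^n(closed disc) \ {a}`, and the spectrum is `{0} ∪ exp (- C)`, where `C` is the dual cone of the set
  of the translations that map `h (φ^n(closed disc) \ {a})` into itself;
* the closed unit disc in all other cases.

Hence the spectrum is one of the sets of this list, and it is closed under multiplication. -/
theorem result (T : (Disc → ℂ) → (Disc → ℂ)) (hT : Endo T) :
    Bdd T ∧ ((∀ f ∈ A, T f = 0) → Spec T = {0}) ∧
      ((∃ f ∈ A, T f ≠ 0) → ∃ φ : Disc → Disc, IsComposition T φ ∧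
        RootCase φ (Spec T) ∧
        (BijOn T A A → (∀ n : ℕ, 0 < n → φ^[n] ≠ id) → Spec T = sphere 0 1) ∧
        ConstCase φ (Spec T) ∧ InnerCase φ (Spec T) ∧ FanCase φ (Spec T) ∧
        (¬ BijOn T A A → Other φ → Spec T = closedBall 0 1)) ∧
      Listed (Spec T) ∧ ∀ l ∈ Spec T, ∀ m ∈ Spec T, l * m ∈ Spec T := by
  obtain ⟨S, hTS, hS, hkey⟩ := KS6_19.Cls.Ele.exists_op T ⟨hT.lin.maps, hT.lin.add, hT.lin.smul⟩ hT.mul
  have hSpec : spectrum ℂ S = Spec T := by
    ext k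
    rw [hkey k]
    show _ ↔ ¬ ∃ S, IsInv T k S
    rw [not_iff_not]
    exact ⟨fun ⟨S, h1, h2, h3⟩ => ⟨S, ⟨h1.1, h1.2, h1.3⟩, h2, h3⟩,
      fun ⟨S, h1, h2, h3⟩ => ⟨S, ⟨h1.1, h1.2, h1.3⟩, h2, h3⟩⟩
  have hof : ∀ f ∈ A, ∃ F : Pool.Agent.Helper203.DS.DA, f = fun z => F.1 z := by
    intro f hf
    obtain ⟨F, hF⟩ := KS6_19.Cls.Ele.exists_of hf
    exact ⟨F, funext fun z => (hF z).symm⟩
  have hmem : ∀ F : Pool.Agent.Helper203.DS.DA, (fun z => F.1 z) ∈ A := KS6_19.Cls.Ele.mem_of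
  have hinj : ∀ F G : Pool.Agent.Helper203.DS.DA, (fun z => F.1 z) = (fun z => G.1 z) → F = G :=
    fun F G h => Pool.Agent.Helper203.DS.da_ext fun z => congrFun h z
  have hbij : BijOn T A A ↔ IsUnit S := by
    rw [ContinuousLinearMap.isUnit_iff_bijective]
    constructor
    · intro h
      refine ⟨fun F G hFG => ?_, fun G => ?_⟩
      · apply hinj
        apply h.injOn (hmem F) (hmem G)
        rw [hTS, hTS, hFG]
      · obtain ⟨f, hf, hfG⟩ := h.surjOn (hmem G)
        obtain ⟨F, rfl⟩ := hof f hf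
        refine ⟨F, hinj _ _ ?_⟩
        rw [← hTS, hfG]
    · intro h
      refine ⟨fun f hf => hT.lin.maps f hf, fun f hf g hg hfg => ?_, fun g hg => ?_⟩
      · obtain ⟨F, rfl⟩ := hof f hf
        obtain ⟨G, rfl⟩ := hof g hg
        rw [hTS, hTS] at hfg
        rw [h.1 (hinj _ _ hfg)]
      · obtain ⟨G, rfl⟩ := hof g hg
        obtain ⟨F, hF⟩ := h.2 G
        exact ⟨_, hmem F, by rw [hTS, hF]⟩
  have hzero : (∀ f ∈ A, T f = 0) → S = 0 := by
    intro h
    refine ContinuousLinearMap.ext fun F => hinj _ _ ?_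
    rw [← hTS, h _ (hmem F)]
    rfl
  have hzero2 : (∀ f ∈ A, T f = 0) → Spec T = {0} := by
    intro h
    rw [← hSpec, hzero h]
    exact spectrum.zero_eq
  have hcomp : ∀ φ : Disc → Disc, Pool.Agent.Helper203.DS.IsComp S φ → IsComposition T φ := by
    intro φ hφ
    refine ⟨hφ.cont, fun f hf => ?_⟩
    obtain ⟨F, rfl⟩ := hof f hf
    rw [hTS]
    funext z
    exact hφ.eq F z
  have hlist : Listed (spectrum ℂ S) := by
    by_cases h : ∀ f ∈ A, T f = 0
    · left
      rw [hzero h]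
      exact spectrum.zero_eq
    · rcases Pool.Agent.Helper203.DS.T_one_cases S hS with h0 | h1
      · exfalso
        apply h
        intro f hf
        obtain ⟨F, rfl⟩ := hof f hf
        rw [hTS, h0]; rfl
      · obtain ⟨φ, hφ⟩ := Pool.Agent.Helper203.DS.exists_phi S hS h1
        exact KS6_19.Cls.listed hS hφ
  have hlist' : Listed (Spec T) := by rw [← hSpec]; exact hlist
  refine ⟨⟨‖S‖, fun f hf M hM z => ?_⟩, hzero2, ?_, hlist', ?_⟩
  · obtain ⟨F, rfl⟩ := hof f hf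
    rw [hTS]
    have hM0 : 0 ≤ M := (norm_nonneg _).trans (hM ⟨0, by simp⟩)
    have h1 : ‖F‖ ≤ M := Pool.Agent.Helper203.DS.norm_le_of hM0 hM
    calc ‖(S F).1 z‖ ≤ ‖S F‖ := Pool.Agent.Helper203.DS.norm_apply_le _ _
      _ ≤ ‖S‖ * ‖F‖ := S.le_opNorm F
      _ ≤ ‖S‖ * M := mul_le_mul_of_nonneg_left h1 (ContinuousLinearMap.opNorm_nonneg S)
  · intro hne
    have h1 : S 1 = 1 := by
      rcases Pool.Agent.Helper203.DS.T_one_cases S hS with h0 | h1
      · obtain ⟨f, hf, hfT⟩ := hne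
        obtain ⟨F, rfl⟩ := hof f hf
        exact absurd (by rw [hTS, h0]; rfl) hfT
      · exact h1
    obtain ⟨φ, hφ⟩ := Pool.Agent.Helper203.DS.exists_phi S hS h1
    rw [← hSpec]
    refine ⟨φ, hcomp φ hφ,
      fun n hn hid hmin => KS6_19.Cls.roots_case hφ n hn hid hmin,
      fun hu h => KS6_19.Cls.circle_case hφ (hbij.1 hu) h,
      fun a ha => KS6_19.Cls.const_case hφ a ha, ?_,
      fun a ha hz hc hs => KS6_19.Cls.fan_case hS hφ a ha hz hc hs,
      fun hu h => KS6_19.Cls.disc_case hS hφ (fun h' => hu (hbij.2 h')) h.1 h.2.1 h.2.2⟩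
    intro a ha hc
    obtain ⟨κ, h2, h3, h4⟩ := KS6_19.Cls.inner_case hφ a ha hc
    refine ⟨κ, h2, fun g hg => ?_, h4⟩
    refine h3.congr_of_eventuallyEq ?_
    filter_upwards [isOpen_ball.mem_nhds (mem_ball_zero_iff.2 ha)] with z hz
    rw [Pool.Agent.Helper203.DS.ext_of_mem _ (ball_subset_closedBall hz)]
    exact hg ⟨z, ball_subset_closedBall hz⟩
  · rw [← hSpec]
    exact KS6_19.Cls.Listed.semigroup hlist

end Pool.Agent.Results.MP_ff3f8e_an.ClassificationOfSpectra
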